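import Pool.Agent.W749.NM.Stm

/-!
# Project NM: two explicit roots (parts COORD and EROOT)
-/

set_option autoImplicit false

namespace Pool.Agent.W21.NM

open Pool.Agent.W749.NM
open Pool.Agent.W428.MOT (amin)
open Pool.Agent.W426.SM (gord ff)

lemma ff_pos_zero {g : ℤ} (hg : 0 < g) : ff g 0 = 0 := by
  unfold ff
  rw [Finset.prod_eq_zero (i := 0) (Finset.mem_range.2 (by omega)) (by simp), zero_div]

/-- EROOT -/
theorem eroot : S_ERoot := by
  intro n k A m e b L' L ac γ q ω α β he hI u hu hcard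
  obtain ⟨hγ0, hγnn, hγpos, hω, hβ, hid⟩ := hI
  obtain ⟨j, hj, j', hj', hne⟩ := Finset.one_lt_card.1 (show 1 < (amin m u).card by omega)
  have hjm : ∑ i, u i * m j i = gord m u := by
    have := hj
    unfold amin at this
    exact (Finset.mem_filter.1 this).2
  have hjm' : ∑ i, u i * m j' i = gord m u := by
    have := hj'
    unfold amin at this
    exact (Finset.mem_filter.1 this).2
  have hge : ∀ l, gord m u ≤ ∑ i, u i * m l i := fun l => by
    unfold gord
    exact ciInf_le (OrderBot.bddBelow _) l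
  classical
  set t : Fin k → ℂ := fun l => if l = j then 1 / 2 else if l = j' then -(3 / 2) else 0 with ht
  have hsum : ∑ l, t l = -1 := by
    rw [← Finset.add_sum_erase _ _ (Finset.mem_univ j),
      ← Finset.add_sum_erase _ _ (Finset.mem_erase.2 ⟨hne.symm, Finset.mem_univ j'⟩)]
    rw [Finset.sum_eq_zero]
    · simp only [ht, if_true, if_neg hne.symm]
      norm_num
    · intro l hl
      rw [Finset.mem_erase, Finset.mem_erase] at hl
      simp [ht, hl.1, hl.2.1]
  have htne : ∀ (l : Fin k) (r : ℕ), t l ≠ -((r : ℂ) + 1) := by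
    intro l r h
    have hre := congrArg Complex.re h
    simp only [ht] at hre
    split_ifs at hre
    · norm_num at hre
      have : (0 : ℝ) ≤ r := Nat.cast_nonneg r
      linarith
    · have h2 : (3 : ℝ) / 2 = r + 1 := by
        have : (-(3 / 2 : ℂ)).re = -(3 / 2 : ℝ) := by norm_num
        rw [this] at hre
        simp at hre
        linarith
      have h3 : (3 : ℝ) = 2 * r + 2 := by linarith
      have h4 : (3 : ℕ) = 2 * r + 2 := by exact_mod_cast h3
      omega
    · simp at hre
      have : (0 : ℝ) ≤ r := Nat.cast_nonneg r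
      linarith
  have key := hid t htne
  have hac : ∑ l, ac l * ∏ l', ff (γ l l') (t l') = 0 := by
    apply Finset.sum_eq_zero
    intro l _
    rw [mul_eq_zero]
    right
    by_contra hprod
    have hle : ∀ l', l' ≠ j → l' ≠ j' → γ l l' ≤ 0 := by
      intro l' h1 h2
      by_contra hgt
      apply hprod
      apply Finset.prod_eq_zero (Finset.mem_univ l')
      simp only [ht, if_neg h1, if_neg h2]
      exact ff_pos_zero (by omega)
    have hA : 0 < ∑ i, (u i : ℤ) * ∑ l', γ l l' * (m l' i : ℤ) := by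
      obtain ⟨i, hi⟩ := hγpos l
      apply Finset.sum_pos'
      · intro i' _
        exact mul_nonneg (by positivity) (hγnn l i')
      · exact ⟨i, Finset.mem_univ i, mul_pos (by exact_mod_cast hu i) hi⟩
    have hB : ∑ i, (u i : ℤ) * ∑ l', γ l l' * (m l' i : ℤ) =
        ∑ l', γ l l' * ((∑ i, (u i : ℤ) * (m l' i : ℤ)) - gord m u) := by
      simp only [mul_sub, Finset.sum_sub_distrib, ← Finset.sum_mul, hγ0 l, zero_mul, sub_zero,
        Finset.mul_sum]
      rw [Finset.sum_comm]
      refine Finset.sum_congr rfl fun l' _ => Finset.sum_congr rfl fun i _ => by ring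
    rw [hB] at hA
    have hC : ∑ l', γ l l' * ((∑ i, (u i : ℤ) * (m l' i : ℤ)) - gord m u) ≤ 0 := by
      apply Finset.sum_nonpos
      intro l' _
      by_cases h1 : l' = j
      · subst h1
        have : (∑ i, (u i : ℤ) * (m l' i : ℤ)) = gord m u := by exact_mod_cast hjm
        rw [this, sub_self, mul_zero]
      by_cases h2 : l' = j'
      · subst h2
        have : (∑ i, (u i : ℤ) * (m l' i : ℤ)) = gord m u := by exact_mod_cast hjm'
        rw [this, sub_self, mul_zero]
      · have h3 : (gord m u : ℤ) ≤ ∑ i, (u i : ℤ) * (m l' i : ℤ) := by exact_mod_cast hge l'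
        exact mul_nonpos_of_nonpos_of_nonneg (hle l' h1 h2) (by linarith)
    linarith
  rw [hac, add_zero, mul_one, hsum] at key
  rw [show (-(1 / (e : ℂ))) = (-1) / e by ring, key]
  apply Finset.sum_eq_zero
  intro l _
  rw [Finset.prod_eq_zero (s := Finset.range e) (i := 0) (Finset.mem_range.2 he) (by simp)]
  simp

/-- The product of the Pochhammer factor and `ff` extends continuously. -/
lemma ext_cont (e : ℕ) (w : ℤ) (z₀ : ℂ) (hz₀ : -(e : ℝ) ≤ z₀.re) :
    ∃ g : ℂ → ℂ, ContinuousAt g z₀ ∧ ∀ z : ℂ, (∀ r : ℕ, z ≠ -((r : ℂ) + 1)) →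
      (∏ r ∈ Finset.range e, (z + (r + 1))) * ff w z = g z := by
  rcases le_or_gt 0 w with hw | hw
  · refine ⟨fun z => (∏ r ∈ Finset.range e, (z + (r + 1))) *
      (∏ r ∈ Finset.range w.toNat, (z - r)), ?_, ?_⟩
    · apply Continuous.continuousAt
      fun_prop
    · intro z _
      have : (-w).toNat = 0 := by omega
      simp [ff, this]
  · obtain ⟨v, hv⟩ : ∃ v : ℕ, w = -(v : ℤ) := ⟨(-w).toNat, by omega⟩
    subst hv
    have h0 : (-(v : ℤ)).toNat = 0 := by omega
    have h1 : (-(-(v : ℤ))).toNat = v := by omega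
    have hne : ∀ z : ℂ, (∀ r : ℕ, z ≠ -((r : ℂ) + 1)) → ∀ r : ℕ, z + (r + 1) ≠ 0 := by
      intro z hz r h
      exact hz r (eq_neg_of_add_eq_zero_left h)
    rcases le_or_gt v e with hve | hve
    · refine ⟨fun z => ∏ r ∈ Finset.Ico v e, (z + (r + 1)), ?_, ?_⟩
      · apply Continuous.continuousAt
        fun_prop
      · intro z hz
        simp only [ff, h0, h1, Finset.range_zero, Finset.prod_empty]
        rw [← Finset.prod_range_mul_prod_Ico _ hve]
        have : ∏ r ∈ Finset.range v, (z + (r + 1)) ≠ 0 :=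
          Finset.prod_ne_zero_iff.2 fun r _ => hne z hz r
        field_simp
    · refine ⟨fun z => (∏ r ∈ Finset.Ico e v, (z + (r + 1)))⁻¹, ?_, ?_⟩
      · apply ContinuousAt.inv₀
        · apply Continuous.continuousAt
          fun_prop
        · apply Finset.prod_ne_zero_iff.2
          intro r hr h
          have hre := congrArg Complex.re h
          simp at hre
          have : (e : ℝ) ≤ r := by exact_mod_cast (Finset.mem_Ico.1 hr).1
          linarith
      · intro z hz
        simp only [ff, h0, h1, Finset.range_zero, Finset.prod_empty]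
        rw [← Finset.prod_range_mul_prod_Ico _ hve.le]
        have h2 : ∏ r ∈ Finset.range e, (z + (r + 1)) ≠ 0 :=
          Finset.prod_ne_zero_iff.2 fun r _ => hne z hz r
        have h3 : ∏ r ∈ Finset.Ico e v, (z + ((r : ℂ) + 1)) ≠ 0 :=
          Finset.prod_ne_zero_iff.2 fun r _ => hne z hz r
        field_simp

/-- COORD -/
theorem coord : S_Coord := by
  intro n k A m e b L' L ac γ q ω α β he hI i₀ hA hex
  obtain ⟨hγ0, hγnn, hγpos, hω, hβ, hid⟩ := hI
  classical
  -- the monomial of minimal degree with `m j i₀ = 0`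
  obtain ⟨j₁, hj₁, hmin⟩ := Finset.exists_min_image
    (Finset.univ.filter fun j => m j i₀ = 0) (fun j => ∑ i, m j i)
    (by obtain ⟨j, hj⟩ := hex; exact ⟨j, by simp [hj]⟩)
  have hj₁0 : m j₁ i₀ = 0 := (Finset.mem_filter.1 hj₁).2
  have hmin' : ∀ l, m l i₀ = 0 → ∑ i, m j₁ i ≤ ∑ i, m l i := fun l hl =>
    hmin l (by simp [hl])
  have heC : (e : ℂ) ≠ 0 := by exact_mod_cast he.ne'
  have hAC : (A i₀ : ℂ) ≠ 0 := by exact_mod_cast hA
  set s₀ : ℂ := -(1 / (A i₀ : ℂ)) with hs₀
  -- evaluation at `t = e s` on `j₁`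
  have hsum : ∀ x : ℂ, ∑ j, (if j = j₁ then x else 0) = x := fun x => by simp
  have hsumm : ∀ (x : ℂ) (i : Fin n), ∑ j, (if j = j₁ then x else 0) * (m j i : ℂ) =
      x * m j₁ i := fun x i => by simp [ite_mul]
  have hprod : ∀ (g : Fin k → ℤ) (x : ℂ), ∏ j, ff (g j) (if j = j₁ then x else 0) =
      ff (g j₁) x * ∏ j ∈ Finset.univ.erase j₁, ff (g j) 0 := by
    intro g x
    rw [← Finset.mul_prod_erase _ _ (Finset.mem_univ j₁)]
    congr 1
    · simp
    · apply Finset.prod_congr rfl
      intro j hj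
      rw [if_neg (Finset.ne_of_mem_erase hj)]
  have hacz : ∀ l, ∏ j ∈ Finset.univ.erase j₁, ff (γ l j) 0 = 0 := by
    intro l
    by_contra hne
    have hle : ∀ j, j ≠ j₁ → γ l j ≤ 0 := by
      intro j hj
      by_contra hgt
      exact hne (Finset.prod_eq_zero (Finset.mem_erase.2 ⟨hj, Finset.mem_univ j⟩)
        (ff_pos_zero (by omega)))
    have hz : ∀ j, γ l j * (m j i₀ : ℤ) = 0 := by
      have h1 : ∀ j ∈ Finset.univ, γ l j * (m j i₀ : ℤ) ≤ 0 := by
        intro j _
        by_cases hj : j = j₁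
        · rw [hj, hj₁0]; simp
        · exact mul_nonpos_of_nonpos_of_nonneg (hle j hj) (by positivity)
      have h2 : ∑ j, γ l j * (m j i₀ : ℤ) = 0 :=
        le_antisymm (Finset.sum_nonpos h1) (hγnn l i₀)
      intro j
      exact (Finset.sum_eq_zero_iff_of_nonpos h1).1 h2 j (Finset.mem_univ j)
    have hpos : 0 < ∑ i, ∑ j, γ l j * (m j i : ℤ) := by
      obtain ⟨i, hi⟩ := hγpos l
      exact Finset.sum_pos' (fun i' _ => hγnn l i') ⟨i, Finset.mem_univ i, hi⟩
    have heq : ∑ i, ∑ j, γ l j * (m j i : ℤ) =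
        ∑ j, γ l j * ((∑ i, (m j i : ℤ)) - ∑ i, (m j₁ i : ℤ)) := by
      have e1 : ∑ j, γ l j * ((∑ i, (m j i : ℤ)) - ∑ i, (m j₁ i : ℤ)) =
          ∑ j, γ l j * (∑ i, (m j i : ℤ)) - (∑ j, γ l j) * ∑ i, (m j₁ i : ℤ) := by
        rw [Finset.sum_mul, ← Finset.sum_sub_distrib]
        exact Finset.sum_congr rfl fun j _ => by ring
      rw [e1, hγ0 l, zero_mul, sub_zero, Finset.sum_comm]
      simp only [Finset.mul_sum]
    rw [heq] at hpos
    have hnp : ∑ j, γ l j * ((∑ i, (m j i : ℤ)) - ∑ i, (m j₁ i : ℤ)) ≤ 0 := by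
      apply Finset.sum_nonpos
      intro j _
      by_cases hj : j = j₁
      · rw [hj, sub_self, mul_zero]
      · rcases mul_eq_zero.1 (hz j) with h | h
        · rw [h, zero_mul]
        · have h' : m j i₀ = 0 := by exact_mod_cast h
          have h3 : (∑ i, (m j₁ i : ℤ)) ≤ ∑ i, (m j i : ℤ) := by exact_mod_cast hmin' j h'
          exact mul_nonpos_of_nonpos_of_nonneg (hle j hj) (by linarith)
    linarith
  choose g hgc hg using fun l : Fin L => ext_cont e (ω l j₁) (e * s₀) (by
    rw [hs₀]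
    have h1 : ((e : ℂ) * -(1 / (A i₀ : ℂ))) = ((-(e / A i₀ : ℝ) : ℝ) : ℂ) := by
      push_cast
      ring
    rw [h1, Complex.ofReal_re]
    have h2 : (1 : ℝ) ≤ A i₀ := by exact_mod_cast Nat.one_le_iff_ne_zero.2 hA
    have h3 : (e : ℝ) / A i₀ ≤ e := div_le_self (by positivity) h2
    linarith)
  -- the continuous right hand side
  set G : ℂ → ℂ := fun s => ∑ l, (q l).eval s * g l (e * s) *
      (∏ j ∈ Finset.univ.erase j₁, ff (ω l j) 0) *
      ∏ i, ∏ r ∈ Finset.range (α l i),
        (s * A i + e * s * m j₁ i - ((β l i : ℂ) - α l i) - r) with hG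
  have hFG : ∀ s : ℂ, (∀ r : ℕ, (e : ℂ) * s ≠ -((r : ℂ) + 1)) → b.eval s = G s := by
    intro s hs
    have key := hid (fun j => if j = j₁ then (e : ℂ) * s else 0) (by
      intro j r
      split_ifs
      · exact hs r
      · intro h
        have hre := congrArg Complex.re h
        simp at hre
        have : (0 : ℝ) ≤ r := Nat.cast_nonneg r
        linarith)
    simp only [hsum, hsumm, hprod, hacz, mul_zero, Finset.sum_const_zero, add_zero, mul_one,
      mul_div_cancel_left₀ _ heC] at key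
    rw [key, hG]
    refine Finset.sum_congr rfl fun l _ => ?_
    rw [← hg l _ hs]
    ring
  have hG0 : G s₀ = 0 := by
    rw [hG]
    apply Finset.sum_eq_zero
    intro l _
    by_cases hne : ∏ j ∈ Finset.univ.erase j₁, ff (ω l j) 0 = 0
    · rw [hne]; ring
    · have hle : ∀ j, j ≠ j₁ → ω l j ≤ 0 := by
        intro j hj
        by_contra hgt
        exact hne (Finset.prod_eq_zero (Finset.mem_erase.2 ⟨hj, Finset.mem_univ j⟩)
          (ff_pos_zero (by omega)))
      have h1 : ∑ j, ω l j * (m j i₀ : ℤ) ≤ 0 := by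
        apply Finset.sum_nonpos
        intro j _
        by_cases hj : j = j₁
        · rw [hj, hj₁0]; simp
        · exact mul_nonpos_of_nonpos_of_nonneg (hle j hj) (by positivity)
      have h2 := hβ l i₀
      have h3 : β l i₀ + 1 ≤ α l i₀ := by
        have : 0 < A i₀ := Nat.pos_of_ne_zero hA
        omega
      rw [Finset.prod_eq_zero (Finset.mem_univ i₀), mul_zero]
      apply Finset.prod_eq_zero (i := α l i₀ - β l i₀ - 1) (Finset.mem_range.2 (by omega))
      have h4 : ((α l i₀ - β l i₀ - 1 : ℕ) : ℂ) = (α l i₀ : ℂ) - β l i₀ - 1 := by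
        rw [Nat.cast_sub (by omega), Nat.cast_sub (by omega)]
        simp
      rw [h4, hj₁0, hs₀]
      field_simp
      push_cast
      ring
  have hGc : ContinuousAt G s₀ := by
    rw [hG]
    apply tendsto_finsetSum
    intro l _
    apply ContinuousAt.mul
    · apply ContinuousAt.mul
      · apply ContinuousAt.mul
        · exact (q l).continuous.continuousAt
        · exact ContinuousAt.comp (f := fun s : ℂ => (e : ℂ) * s) (g := g l) (hgc l)
            (by fun_prop)
      · exact continuousAt_const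
    · apply Continuous.continuousAt
      fun_prop
  -- a sequence tending to `s₀`
  have hseq : Filter.Tendsto (fun N : ℕ => s₀ + ((1 / ((N : ℝ) + 1) : ℝ) : ℂ) * Complex.I)
      Filter.atTop (nhds s₀) := by
    have h1 : Filter.Tendsto (fun N : ℕ => ((1 / ((N : ℝ) + 1) : ℝ) : ℂ)) Filter.atTop
        (nhds ((0 : ℝ) : ℂ)) :=
      (Complex.continuous_ofReal.tendsto 0).comp tendsto_one_div_add_atTop_nhds_zero_nat
    have h2 := (h1.mul_const Complex.I).const_add s₀
    simpa using h2
  have hT1 := (b.continuous.tendsto s₀).comp hseq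
  have hT2 := hGc.tendsto.comp hseq
  have hEq : (fun N : ℕ => b.eval (s₀ + ((1 / ((N : ℝ) + 1) : ℝ) : ℂ) * Complex.I)) =
      fun N : ℕ => G (s₀ + ((1 / ((N : ℝ) + 1) : ℝ) : ℂ) * Complex.I) := by
    funext N
    apply hFG
    intro r h
    have him := congrArg Complex.im h
    have h5 : (e : ℂ) * (s₀ + ((1 / ((N : ℝ) + 1) : ℝ) : ℂ) * Complex.I) =
        ((-(e / A i₀) : ℝ) : ℂ) + (((e : ℝ) * (1 / ((N : ℝ) + 1)) : ℝ) : ℂ) * Complex.I := by
      rw [hs₀]
      push_cast
      ring
    have h6 : (-((r : ℂ) + 1)) = ((-((r : ℝ) + 1) : ℝ) : ℂ) := by push_cast; ring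
    rw [h5, h6] at him
    rw [Complex.ofReal_im, Complex.add_im, Complex.ofReal_im, Complex.mul_im, Complex.I_im,
      Complex.I_re, Complex.ofReal_re, Complex.ofReal_im] at him
    have h7 : (0 : ℝ) < (e : ℝ) * (1 / ((N : ℝ) + 1)) := by positivity
    linarith
  have hT3 : Filter.Tendsto (fun N : ℕ =>
      b.eval (s₀ + ((1 / ((N : ℝ) + 1) : ℝ) : ℂ) * Complex.I)) Filter.atTop (nhds (G s₀)) := by
    rw [hEq]
    exact hT2
  have := tendsto_nhds_unique hT1 hT3
  rw [this, hG0]

end Pool.Agent.W21.NM
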